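import Pool.Agent.N295.SR.Stm2
import Pool.Agent.N273.LT.St1

/-!
# The operator `-u'' + (a - q) u` does not lose sign changes on the line
-/

set_option autoImplicit false

open Filter Topology Set

namespace Pool.Agent.N519.SR.LB

open Pool.Agent.N273.LT (Alt second_le peak)
open Pool.Agent.N295.SR

/-- the right end, positive case -/
theorem end_pos {u u' u'' p : ℝ → ℝ} {a c : ℝ} (h1 : ∀ x, HasDerivAt u (u' x) x)
    (h2 : ∀ x, HasDerivAt u' (u'' x) x) (hp : ∀ x, 0 < p x) (ha : 0 < a)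
    (hpl : Tendsto p atTop (𝓝 a)) (hu : Tendsto u atTop (𝓝 c)) (hu'' : Tendsto u'' atTop (𝓝 0))
    {s b : ℝ} (hsb : s < b) (hs : u s < 0) (hb : 0 < u b) :
    ∃ x, s < x ∧ 0 < u x ∧ 0 < -u'' x + p x * u x := by
  have hcont : Continuous u := continuous_iff_continuousAt.2 fun x => (h1 x).continuousAt
  rcases lt_or_ge 0 c with hc | hc
  · have hL : Tendsto (fun x => -u'' x + p x * u x) atTop (𝓝 (-0 + a * c)) :=
      hu''.neg.add (hpl.mul hu)
    rw [neg_zero, zero_add] at hL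
    have e1 := hL.eventually (lt_mem_nhds (mul_pos ha hc))
    have e2 := hu.eventually (lt_mem_nhds hc)
    obtain ⟨x, h3, h4, h5⟩ := (e1.and (e2.and (eventually_gt_atTop s))).exists
    exact ⟨x, h5, h4, h3⟩
  · have e2 := hu.eventually (gt_mem_nhds (hc.trans_lt hb))
    obtain ⟨X, hX1, hX2⟩ := (e2.and (eventually_gt_atTop b)).exists
    obtain ⟨x, hx, hmax⟩ := isCompact_Icc.exists_isMaxOn
      (⟨b, hsb.le, hX2.le⟩ : (Set.Icc s X).Nonempty) hcont.continuousOn
    have hbx : u b ≤ u x := hmax ⟨hsb.le, hX2.le⟩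
    have hx0 : 0 < u x := hb.trans_le hbx
    have hsx : s < x := lt_of_le_of_ne hx.1 fun h => by rw [← h] at hx0; linarith
    have hxX : x < X := lt_of_le_of_ne hx.2 fun h => by rw [h] at hbx; linarith
    have hloc : IsLocalMax u x := hmax.isLocalMax (Icc_mem_nhds hsx hxX)
    have h3 := second_le h1 (h2 x) hloc
    have h4 := mul_pos (hp x) hx0
    exact ⟨x, hsx, hx0, by linarith⟩

/-- the right end -/
theorem end_right {u u' u'' p : ℝ → ℝ} {a c : ℝ} (h1 : ∀ x, HasDerivAt u (u' x) x)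
    (h2 : ∀ x, HasDerivAt u' (u'' x) x) (hp : ∀ x, 0 < p x) (ha : 0 < a)
    (hpl : Tendsto p atTop (𝓝 a)) (hu : Tendsto u atTop (𝓝 c)) (hu'' : Tendsto u'' atTop (𝓝 0))
    {s b : ℝ} (hsb : s < b) (hs : u s * u b < 0) :
    ∃ x, s < x ∧ 0 < u x * u b ∧ 0 < (-u'' x + p x * u x) * u b := by
  rcases lt_trichotomy (u b) 0 with hb | hb | hb
  · have hs' : 0 < u s := by
      by_contra h
      push Not at h
      nlinarith
    obtain ⟨x, hx1, hx2, hx3⟩ := end_pos (u := fun x => -u x) (u' := fun x => -u' x)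
      (u'' := fun x => -u'' x) (p := p) (c := -c) (fun x => (h1 x).neg) (fun x => (h2 x).neg) hp ha
      hpl hu.neg (by simpa using hu''.neg) hsb (by linarith) (by linarith)
    exact ⟨x, hx1, by nlinarith, by nlinarith⟩
  · rw [hb] at hs
    simp at hs
  · have hs' : u s < 0 := by
      by_contra h
      push Not at h
      nlinarith
    obtain ⟨x, hx1, hx2, hx3⟩ := end_pos h1 h2 hp ha hpl hu hu'' hsb hs' hb
    exact ⟨x, hx1, mul_pos hx2 hb, mul_pos hx3 hb⟩

/-- the left end -/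
theorem end_left {u u' u'' p : ℝ → ℝ} {a c : ℝ} (h1 : ∀ x, HasDerivAt u (u' x) x)
    (h2 : ∀ x, HasDerivAt u' (u'' x) x) (hp : ∀ x, 0 < p x) (ha : 0 < a)
    (hpl : Tendsto p atBot (𝓝 a)) (hu : Tendsto u atBot (𝓝 c)) (hu'' : Tendsto u'' atBot (𝓝 0))
    {s b : ℝ} (hsb : b < s) (hs : u s * u b < 0) :
    ∃ x, x < s ∧ 0 < u x * u b ∧ 0 < (-u'' x + p x * u x) * u b := by
  have g1 : ∀ x, HasDerivAt (fun x => u (-x)) (-u' (-x)) x := by
    intro x
    have := (h1 (-x)).comp x (hasDerivAt_neg x)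
    simpa [Function.comp_def] using this
  have g2 : ∀ x, HasDerivAt (fun x => -u' (-x)) (u'' (-x)) x := by
    intro x
    have := (h2 (-x)).comp x (hasDerivAt_neg x)
    have e : HasDerivAt (fun x => u' (-x)) (-u'' (-x)) x := by
      simpa [Function.comp_def] using this
    have e' : HasDerivAt (fun x => -u' (-x)) (- -u'' (-x)) x := e.neg
    rwa [neg_neg] at e'
  obtain ⟨x, hx1, hx2, hx3⟩ := end_right (u := fun x => u (-x)) (u' := fun x => -u' (-x))
    (u'' := fun x => u'' (-x)) (p := fun x => p (-x)) (c := c) (s := -s) (b := -b) g1 g2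
    (fun x => hp _) ha (hpl.comp tendsto_neg_atTop_atBot) (hu.comp tendsto_neg_atTop_atBot)
    (hu''.comp tendsto_neg_atTop_atBot) (by linarith) (by simpa using hs)
  simp only [neg_neg] at hx2 hx3
  exact ⟨-x, by linarith, hx2, hx3⟩

/-- signs -/
theorem sgn {x y z : ℝ} (h1 : 0 < x * y) (h2 : y * z < 0) : x * z < 0 := by
  rcases lt_trichotomy y 0 with hy | hy | hy
  · have hx : x < 0 := by
      by_contra h
      push Not at h
      nlinarith
    have hz : 0 < z := by
      by_contra h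
      push Not at h
      nlinarith
    exact mul_neg_of_neg_of_pos hx hz
  · rw [hy] at h1
    simp at h1
  · have hx : 0 < x := by
      by_contra h
      push Not at h
      nlinarith
    have hz : z < 0 := by
      by_contra h
      push Not at h
      nlinarith
    exact mul_neg_of_pos_of_neg hx hz

theorem t_LB : S_LB := by
  intro u u' u'' q a c₁ c₂ h1 h2 hp ha hq1 hq2 hu1 hu2 hd1 hd2 n h
  obtain ⟨t, ht1, -, ht3⟩ := h
  rcases Nat.eq_zero_or_pos n with hn | hn
  · subst hn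
    exact ⟨fun _ => 0, fun i hi => by omega, fun i _ => mem_univ _, fun i hi => by omega⟩
  have hpl1 : Tendsto (fun x => a - q x) atTop (𝓝 a) := by
    simpa using tendsto_const_nhds.sub hq1
  have hpl2 : Tendsto (fun x => a - q x) atBot (𝓝 a) := by
    simpa using tendsto_const_nhds.sub hq2
  set L : ℝ → ℝ := fun x => -u'' x + (a - q x) * u x with hL
  let P : ℕ → ℝ → Prop := fun i x => 0 < u x * u (t i) ∧ 0 < L x * u (t i) ∧
    (i < n → x < t (i + 1))
  have base : ∃ x, P 0 x := by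
    have h3 := ht3 0 hn
    obtain ⟨x, e1, e2, e3⟩ := end_left h1 h2 hp ha hpl2 hu2 hd2 (ht1 0 hn)
      (by rw [mul_comm]; exact h3)
    exact ⟨x, e2, e3, fun _ => e1⟩
  have step : ∀ i, i < n → ∀ x, P i x → ∃ y, x < y ∧ P (i + 1) y := by
    intro i hi x hx
    obtain ⟨e1, e2, e3⟩ := hx
    have h3 : u x * u (t (i + 1)) < 0 := sgn e1 (ht3 i hi)
    rcases Nat.lt_or_ge (i + 1) n with h4 | h4
    · obtain ⟨y, g1, g2, g3, g4⟩ := peak h1 h2 hp (e3 hi) (ht1 (i + 1) h4) h3 (ht3 (i + 1) h4)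
      exact ⟨y, g1, g3, g4, fun _ => g2⟩
    · obtain ⟨y, g1, g2, g3⟩ := end_right h1 h2 hp ha hpl1 hu1 hd1 (e3 hi) h3
      exact ⟨y, g1, g2, g3, fun h => by omega⟩
  obtain ⟨x₀, hx₀⟩ := base
  choose! f hf using step
  let s : ℕ → ℝ := fun i => Nat.rec x₀ (fun i x => f i x) i
  have hs0 : s 0 = x₀ := rfl
  have hss : ∀ i, s (i + 1) = f i (s i) := fun i => rfl
  have hP : ∀ i ≤ n, P i (s i) := by
    intro i
    induction i with
    | zero => intro _; rw [hs0]; exact hx₀
    | succ i ih =>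
      intro hi
      rw [hss]
      exact (hf i (by omega) _ (ih (by omega))).2
  refine ⟨s, fun i hi => ?_, fun i _ => mem_univ _, fun i hi => ?_⟩
  · rw [hss]
    exact (hf i hi _ (hP i hi.le)).1
  · obtain ⟨-, a2, -⟩ := hP i hi.le
    obtain ⟨-, b2, -⟩ := hP (i + 1) hi
    have h3 : L (s i) * u (t (i + 1)) < 0 := sgn a2 (ht3 i hi)
    have h4 : 0 < u (t (i + 1)) * L (s (i + 1)) := by rw [mul_comm]; exact b2
    have h5 : L (s (i + 1)) * L (s i) < 0 := sgn b2 (by rw [mul_comm]; exact h3)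
    show L (s i) * L (s (i + 1)) < 0
    rw [mul_comm]
    exact h5

end Pool.Agent.N519.SR.LB
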