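import Pool.Agent.N273.LT.Gr
import Pool.Agent.N295.SR.Stm

/-!
# Spheres of revolution: steps and chains of boxes
-/

set_option autoImplicit false

open MeasureTheory Set Filter Topology Function

namespace Pool.Agent.N519.SR.Step

open Pool.Agent.Y291.PA (Sol2)
open Pool.Agent.Y291.DB (Sol um)
open Pool.Agent.N273.LT (Alt sc Bd UB le_sc sc_le int_of_bd comp_int stLoc_proved)
open Pool.Agent.N295.SR

theorem Alt.congr {u v : ℝ → ℝ} {I : Set ℝ} (h : ∀ x ∈ I, u x = v x) {n : ℕ} (hu : Alt u I n) :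
    Alt v I n := by
  obtain ⟨t, h1, h2, h3⟩ := hu
  refine ⟨t, h1, h2, fun i hi => ?_⟩
  rw [← h _ (h2 i hi.le), ← h _ (h2 (i + 1) hi)]
  exact h3 i hi

theorem Alt.empty {u : ℝ → ℝ} {a b : ℝ} (hab : b ≤ a) {n : ℕ} (hu : Alt u (Ioo a b) n) : False := by
  obtain ⟨t, -, h2, -⟩ := hu
  have := h2 0 (Nat.zero_le _)
  linarith [this.1, this.2]

/-- uniform bounds -/
theorem ub {φ : ℝ → ℝ → ℝ} {Z : ℝ} (hc : Continuous (uncurry φ)) (h : Cnt φ Z) : UB φ := by
  have hb1 : ∀ x, Bd (fun t => φ x t) := by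
    intro x a b
    obtain ⟨m, hm⟩ := exists_nat_ge (Z * (1 + (b - a)))
    refine ⟨m, fun n hn => ?_⟩
    have hn' : Alt (fun t => φ x t) (Ioo a b) n := hn
    rcases le_or_gt a b with hab | hab
    · have h1 := h.a x a b n hab hn'
      exact_mod_cast h1.trans hm
    · exact (Alt.empty hab.le hn').elim
  have hb2 : ∀ y, Bd (fun t => φ t y) := by
    intro y a b
    obtain ⟨m, hm⟩ := exists_nat_ge Z
    refine ⟨m, fun n hn => ?_⟩
    have hn' : Alt (fun t => φ t y) (Ioo a b) n := hn
    have h1 := h.b y n (hn'.subset (subset_univ _))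
    exact_mod_cast h1.trans hm
  refine ⟨hc, hb1, hb2, fun w => ?_, fun w => ?_⟩
  · refine ⟨|Z| * (1 + 2 * |w|), fun x y => ?_⟩
    refine sc_le (hb1 x) (by positivity) fun n hn => ?_
    rcases lt_or_ge w 0 with hw | hw
    · exact (Alt.empty (by linarith) hn).elim
    · have h1 := h.a x _ _ n (by linarith) hn
      refine h1.trans ?_
      have e : 1 + (y + w - (y + -w)) = 1 + 2 * |w| := by
        rw [abs_of_nonneg hw]
        ring
      rw [e]
      exact mul_le_mul_of_nonneg_right (le_abs_self Z) (by positivity)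
  · refine ⟨|Z|, fun x y => ?_⟩
    refine sc_le (hb2 y) (by positivity) fun n hn => ?_
    exact (h.b y n (hn.subset (subset_univ _))).trans (le_abs_self Z)

/-- Rescaling. -/
theorem sol_scale {q : ℝ → ℝ} {φ φx φxx φy φyy : ℝ → ℝ → ℝ}
    (h : Sol q φ φx φxx φy φyy) (a b r : ℝ) :
    Sol2 (fun s _t => r ^ 2 * q (a + r * s) + 0)
      (fun s t => φ (a + r * s) (b + r * t)) (fun s t => r * φx (a + r * s) (b + r * t))
      (fun s t => r ^ 2 * φxx (a + r * s) (b + r * t))
      (fun s t => r * φy (a + r * s) (b + r * t))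
      (fun s t => r ^ 2 * φyy (a + r * s) (b + r * t)) := by
  have hc : ∀ (ψ : ℝ → ℝ → ℝ) (c : ℝ), Continuous (uncurry ψ) →
      Continuous (uncurry fun s t => c * ψ (a + r * s) (b + r * t)) := by
    intro ψ c hψ
    have h1 : Continuous fun p : ℝ × ℝ => c * uncurry ψ (a + r * p.1, b + r * p.2) :=
      continuous_const.mul (hψ.comp (by fun_prop))
    exact h1
  have hdx : ∀ (s : ℝ), HasDerivAt (fun s : ℝ => a + r * s) r s := by
    intro s
    have := ((hasDerivAt_id s).const_mul r).const_add a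
    simpa using this
  have hdy : ∀ (s : ℝ), HasDerivAt (fun s : ℝ => b + r * s) r s := by
    intro s
    have := ((hasDerivAt_id s).const_mul r).const_add b
    simpa using this
  refine ⟨?_, ?_, hc _ _ h.cx, hc _ _ h.cxx, hc _ _ h.cy, hc _ _ h.cyy, ?_, ?_, ?_, ?_, ?_⟩
  · have hq := h.qc
    have h1 : Continuous fun p : ℝ × ℝ => r ^ 2 * q (a + r * p.1) + 0 := by fun_prop
    exact h1
  · have h1 := hc φ 1 h.c
    simpa using h1
  · intro s t
    have h1 := (h.dx (a + r * s) (b + r * t)).comp s (hdx s)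
    refine h1.congr_deriv ?_
    ring
  · intro s t
    have h1 := ((h.dxx (a + r * s) (b + r * t)).comp s (hdx s)).const_mul r
    refine h1.congr_deriv ?_
    ring
  · intro s t
    have h1 := (h.dy (a + r * s) (b + r * t)).comp t (hdy t)
    refine h1.congr_deriv ?_
    ring
  · intro s t
    have h1 := ((h.dyy (a + r * s) (b + r * t)).comp t (hdy t)).const_mul r
    refine h1.congr_deriv ?_
    ring
  · intro s t
    have h1 : φxx (a + r * s) (b + r * t) + φyy (a + r * s) (b + r * t) =
        -(q (a + r * s) * φ (a + r * s) (b + r * t)) :=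
      h.pde (a + r * s) (b + r * t)
    linear_combination r ^ 2 * h1

/-- One step of the chain. -/
theorem STEP : S_EXT → S_STEP := by
  intro hext
  obtain ⟨C, hC, H⟩ := stLoc_proved
  refine ⟨C, hC, ?_⟩
  intro q K φ φx φxx φy φyy Z hS hZ r w X Y a b a' b' κ hr hq hX hY ha hb hκ x y hx hy
  have hU : UB φ := ub hS.s.c hZ
  obtain ⟨ψ, ψx, ψxx, ψy, ψyy, hψ, hψφ⟩ := hext q K φ φx φxx φy φyy hS.s hS.per hS.modes (a - 5 * r)
  have hX' := abs_nonneg (a - X)
  have hw : 0 < w := by linarith
  obtain ⟨B₁, hB₁⟩ := hU.u1 w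
  obtain ⟨B₂, hB₂⟩ := hU.u2 w
  have haX := abs_le.1 (show |a - X| ≤ w - 2 * r by linarith)
  have hbY := abs_le.1 (show |b - Y| ≤ w - 2 * r by linarith)
  have haa := abs_le.1 ha
  have m1 : Measurable fun x => n1 φ w x Y := (hU.m1 hw).comp (measurable_id.prodMk measurable_const)
  have m2 : Measurable fun y => n2 φ w X y := (hU.m2 hw).comp (measurable_const.prodMk measurable_id)
  have m1' : Measurable fun s : ℝ => n1 φ w (a + r * s) Y := m1.comp (by fun_prop)
  have m2' : Measurable fun s : ℝ => n2 φ w X (b + r * s) := m2.comp (by fun_prop)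
  have hqc := hS.s.qc
  have hge : ∀ s : ℝ, -2 ≤ s → a - 5 * r ≤ a + r * s := by
    intro s hs
    nlinarith
  have key := H (fun s => r ^ 2 * q (max (a + r * s) (a - 5 * r))) (fun _ => 0)
    (fun s t => ψ (a + r * s) (b + r * t)) _ _ _ _
    (fun s => (n1 φ w (a + r * s) Y : ℝ)) (fun t => (n2 φ w X (b + r * t) : ℝ))
    (by fun_prop) (by fun_prop) (fun s => hq _ (le_max_right _ _))
    (fun t => by norm_num) (sol_scale hψ a b r)
    (int_of_bd m1' (fun s => hB₁ _ _) measure_Icc_lt_top.ne)
    (int_of_bd m2' (fun s => hB₂ _ _) measure_Icc_lt_top.ne)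
    (fun s hs n hn => by
      have h0 : Alt (fun t => φ (a + r * s) (b + r * t)) (Ioo (-2) 2) n :=
        Alt.congr (fun t _ => hψφ _ _ (hge s hs.1)) hn
      have h1 := Pool.Agent.N273.LT.Alt.affine (u := fun y => φ (a + r * s) y) hr h0
      have h2 := h1.subset (J := Ioo (Y + -w) (Y + w))
        (Ioo_subset_Ioo (by linarith [hbY.1]) (by linarith [hbY.2]))
      have h3 : n ≤ n1 φ w (a + r * s) Y := le_sc (hU.b1 _) h2
      exact_mod_cast h3)
    (fun t ht n hn => by
      have h0 : Alt (fun s => φ (a + r * s) (b + r * t)) (Ioo (-2) 2) n :=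
        Alt.congr (fun s hs => hψφ _ _ (hge s hs.1.le)) hn
      have h1 := Pool.Agent.N273.LT.Alt.affine (u := fun x => φ x (b + r * t)) hr h0
      have h2 := h1.subset (J := Ioo (X + -w) (X + w))
        (Ioo_subset_Ioo (by linarith [haX.1]) (by linarith [haX.2]))
      have h3 : n ≤ n2 φ w X (b + r * t) := le_sc (hU.b2 _) h2
      exact_mod_cast h3)
    ((a' - a) / r) ((b' - b) / r) κ
    (by rw [abs_div, abs_of_pos hr, div_le_one hr]; exact ha)
    (by rw [abs_div, abs_of_pos hr, div_le_one hr]; exact hb)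
    (fun s t hs ht => by
      have e : a + r * s - a' = r * (s - (a' - a) / r) := by
        field_simp
        ring
      have e' : b + r * t - b' = r * (t - (b' - b) / r) := by
        field_simp
        ring
      have h1 : |a + r * s - a'| ≤ r := by
        rw [e, abs_mul, abs_of_pos hr]
        nlinarith
      have h2 : |b + r * t - b'| ≤ r := by
        rw [e', abs_mul, abs_of_pos hr]
        nlinarith
      have h3 := abs_le.1 h1
      show |ψ (a + r * s) (b + r * t)| ≤ κ
      rw [hψφ _ _ (by linarith [h3.1, haa.1])]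
      exact hκ _ _ h1 h2)
    ((x - a) / r) ((y - b) / r)
    (by rw [abs_div, abs_of_pos hr, div_le_one hr]; exact hx)
    (by rw [abs_div, abs_of_pos hr, div_le_one hr]; exact hy)
  have ex : a + r * ((x - a) / r) = x := by
    field_simp
    ring
  have ey : b + r * ((y - b) / r) = y := by
    field_simp
    ring
  have hxx := abs_le.1 hx
  rw [ex, ey, hψφ _ _ (by linarith [hxx.1])] at key
  refine key.trans ?_
  have hκ0 : 0 ≤ κ := (abs_nonneg _).trans (hκ a' b' (by simpa using hr.le) (by simpa using hr.le))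
  refine mul_le_mul_of_nonneg_left (Real.exp_le_exp.2 (mul_le_mul_of_nonneg_left ?_ hC.le)) hκ0
  have i1 := comp_int m1 (fun x => hB₁ x Y) (a := a) (r := r) (X := X) (w := w) hr
    (by linarith [haX.1]) (by linarith [haX.2])
  have i2 := comp_int m2 (fun y => hB₂ X y) (a := b) (r := r) (X := Y) (w := w) hr
    (by linarith [hbY.1]) (by linarith [hbY.2])
  unfold zz
  rw [add_div]
  linarith

/-- Chains of boxes. -/
theorem CHAIN : S_STEP → S_CHAIN := by
  intro hstep
  obtain ⟨C, hC, H⟩ := hstep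
  refine ⟨C, hC, ?_⟩
  intro q K φ φx φxx φy φyy Z hS hZ r w X Y κ N hr hq hw hκ a b ha hb
  rcases Nat.eq_zero_or_pos N with rfl | hN
  · simp only [Nat.cast_zero, zero_mul, Real.exp_zero, mul_one]
    rw [Nat.cast_zero, zero_mul] at ha hb
    exact hκ a b (ha.trans hr.le) (hb.trans hr.le)
  have hN' : (0 : ℝ) < N := by exact_mod_cast hN
  set E := C * (1 + zz φ w X Y / r) with hE
  have hda : |(a - X) / N| ≤ r := by
    rw [abs_div, abs_of_pos hN', div_le_iff₀ hN']
    linarith
  have hdb : |(b - Y) / N| ≤ r := by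
    rw [abs_div, abs_of_pos hN', div_le_iff₀ hN']
    linarith
  have key : ∀ j : ℕ, j ≤ N → ∀ x y, |x - (X + j * ((a - X) / N))| ≤ r →
      |y - (Y + j * ((b - Y) / N))| ≤ r → |φ x y| ≤ κ * Real.exp (j * E) := by
    intro j
    induction j with
    | zero =>
      intro _ x y hx hy
      simp only [Nat.cast_zero, zero_mul, Real.exp_zero, mul_one]
      rw [Nat.cast_zero, zero_mul, add_zero] at hx hy
      exact hκ x y hx hy
    | succ j ih =>
      intro hj x y hx hy
      have hj' : ((j + 1 : ℕ) : ℝ) ≤ N := by exact_mod_cast hj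
      have hj0 : (0 : ℝ) ≤ ((j + 1 : ℕ) : ℝ) := Nat.cast_nonneg _
      have e1 : |X + ((j + 1 : ℕ) : ℝ) * ((a - X) / N) - X| ≤ N * r := by
        rw [add_sub_cancel_left, abs_mul, abs_of_nonneg hj0]
        exact mul_le_mul hj' hda (abs_nonneg _) hN'.le
      have e2 : |Y + ((j + 1 : ℕ) : ℝ) * ((b - Y) / N) - Y| ≤ N * r := by
        rw [add_sub_cancel_left, abs_mul, abs_of_nonneg hj0]
        exact mul_le_mul hj' hdb (abs_nonneg _) hN'.le
      have e3 := (abs_le.1 e1).1
      have h1 := H q K φ φx φxx φy φyy Z hS hZ r w X Y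
        (X + ((j + 1 : ℕ) : ℝ) * ((a - X) / N)) (Y + ((j + 1 : ℕ) : ℝ) * ((b - Y) / N))
        (X + (j : ℝ) * ((a - X) / N)) (Y + (j : ℝ) * ((b - Y) / N)) (κ * Real.exp (j * E))
        hr (fun x hx => hq x (by linarith)) (by linarith) (by linarith)
        (by
          have : X + (j : ℝ) * ((a - X) / N) - (X + ((j + 1 : ℕ) : ℝ) * ((a - X) / N)) =
            -((a - X) / N) := by push_cast; ring
          rw [this, abs_neg]
          exact hda)
        (by
          have : Y + (j : ℝ) * ((b - Y) / N) - (Y + ((j + 1 : ℕ) : ℝ) * ((b - Y) / N)) =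
            -((b - Y) / N) := by push_cast; ring
          rw [this, abs_neg]
          exact hdb)
        (fun x y hx hy => ih (by omega) x y hx hy) x y hx hy
      refine h1.trans (le_of_eq ?_)
      rw [mul_assoc, ← Real.exp_add]
      congr 2
      push_cast
      ring
  have h2 := key N le_rfl a b
    (by
      have : a - (X + N * ((a - X) / N)) = 0 := by field_simp; ring
      rw [this, abs_zero]
      exact hr.le)
    (by
      have : b - (Y + N * ((b - Y) / N)) = 0 := by field_simp; ring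
      rw [this, abs_zero]
      exact hr.le)
  exact h2

end Pool.Agent.N519.SR.Step
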